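import Mathlib

/-! Domino games with and without passing (MP_d015f1_co, Q1). -/

namespace Pool.Agent.Results.MP_d015f1_co.PassingMatters

/-- Cells of the lattice `ℤ^d`. -/
abbrev Cell (d : ℕ) : Type := Fin d → ℤ

/-- A pattern: a finite set of cells and a colour for each of them. -/
structure Pattern (d : ℕ) (α : Type) where
  support : Finset (Cell d)
  colour : support → α

/-- A position: the coloured cells with their colours. -/
abbrev Position (d : ℕ) (α : Type) : Type := Cell d → Option α

/-- The pattern `p` appears in the position `q` (in some translate). -/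
def Appears {d : ℕ} {α : Type} (p : Pattern d α) (q : Position d α) : Prop :=
  ∃ i : Cell d, ∀ s : p.support, q (i + s.1) = some (p.colour s)

/-- Some forbidden pattern appears: the game stops and `A` wins. -/
def Final {d : ℕ} {α : Type} (F : Set (Pattern d α)) (q : Position d α) : Prop := ∃ p ∈ F, Appears p q

/-- `q'` arises from `q` by colouring one uncoloured cell of `E`. -/
def Colours {d : ℕ} {α : Type} (E : Set (Cell d)) (q q' : Position d α) : Prop :=
  ∃ i ∈ E, ∃ a : α, q i = none ∧ q' = Function.update q i (some a)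

/-- A move: colouring a cell, or passing if passing is allowed. -/
def Move {d : ℕ} {α : Type} (pass : Prop) (E : Set (Cell d)) (q q' : Position d α) : Prop :=
  Colours E q q' ∨ (pass ∧ q' = q)

/-- `AWins pass E F turnA q`: the position `q` with `A` to move (`turnA = true`) or with `B` to move
(`turnA = false`) is winning for `A`, in the usual inductive sense. If all of `E` is coloured and the
position is not final, `B` wins. -/
inductive AWins {d : ℕ} {α : Type} (pass : Prop) (E : Set (Cell d)) (F : Set (Pattern d α)) :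
    Bool → Position d α → Prop
  | final (t : Bool) (q : Position d α) (h : Final F q) : AWins pass E F t q
  | aMove (q q' : Position d α) (hm : Move pass E q q') (h : AWins pass E F false q') :
      AWins pass E F true q
  | bMove (q : Position d α) (hfree : ∃ i ∈ E, q i = none)
      (h : ∀ q', Move pass E q q' → AWins pass E F true q') : AWins pass E F false q

/-- The game with passing is winning for `A` (who begins, from the empty pattern). -/
def AWinsWithPassing {d : ℕ} {α : Type} (E : Set (Cell d)) (F : Set (Pattern d α)) : Prop :=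
  AWins True E F true (fun _ => none)

/-- The game without passing is winning for `A`. -/
def AWinsWithoutPassing {d : ℕ} {α : Type} (E : Set (Cell d)) (F : Set (Pattern d α)) : Prop :=
  AWins False E F true (fun _ => none)

/-- A horizontal line of the square lattice and one more cell. -/
def E₀ : Set (Cell 2) := {x | x 1 = 0} ∪ {![0, 2]}

/-- The horizontal word `aaa`. -/
def triple (a : Bool) : Pattern 2 Bool where
  support := {![0, 0], ![1, 0], ![2, 0]}
  colour _ := a

/-- The forbidden horizontal words `000` and `111`. -/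
def F₀ : Set (Pattern 2 Bool) := {triple false, triple true}

theorem mem_line (i : ℤ) : (![i, 0] : Cell 2) ∈ E₀ := Or.inl rfl

theorem eq_line {x : Cell 2} (h : x 1 = 0) : x = ![x 0, 0] := by
  ext j
  fin_cases j
  · rfl
  · exact h

theorem line_inj {i j : ℤ} : (![i, 0] : Cell 2) = ![j, 0] ↔ i = j := by
  constructor
  · intro h
    exact congrFun h 0
  · rintro rfl
    rfl

theorem line_ne (i : ℤ) : (![i, 0] : Cell 2) ≠ ![0, 2] := by
  intro h
  have := congrFun h 1
  simp at this

/-- Three equal neighbours on a line make the position final. -/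
theorem final_of {q : Position 2 Bool} {i : ℤ} {a : Bool} (h0 : q ![i, 0] = some a)
    (h1 : q ![i + 1, 0] = some a) (h2 : q ![i + 2, 0] = some a) : Final F₀ q := by
  refine ⟨triple a, by cases a <;> simp [F₀], ![i, 0], ?_⟩
  rintro ⟨s, hs⟩
  simp only [triple, Finset.mem_insert, Finset.mem_singleton] at hs
  have e : ∀ k : ℤ, (![i, 0] : Cell 2) + ![k, 0] = ![i + k, 0] := by
    intro k
    ext j
    fin_cases j <;> simp
  rcases hs with rfl | rfl | rfl
  · show q (![i, 0] + ![0, 0]) = some a
    rw [e, add_zero, h0]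
  · show q (![i, 0] + ![1, 0]) = some a
    rw [e, h1]
  · show q (![i, 0] + ![2, 0]) = some a
    rw [e, h2]

theorem final_cases {q : Position 2 Bool} (h : Final F₀ q) :
    ∃ (x : Cell 2) (a : Bool), q x = some a ∧ q (x + ![1, 0]) = some a ∧ q (x + ![2, 0]) = some a := by
  obtain ⟨p, hp, x, hx⟩ := h
  have key : ∀ a : Bool, p = triple a → ∃ (x : Cell 2) (a : Bool), q x = some a ∧
      q (x + ![1, 0]) = some a ∧ q (x + ![2, 0]) = some a := by
    rintro a rfl
    refine ⟨x, a, ?_, ?_, ?_⟩
    · have := hx ⟨![0, 0], by simp [triple]⟩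
      have e : x + (![0, 0] : Cell 2) = x := by
        ext j
        fin_cases j <;> simp
      rw [e] at this
      exact this
    · exact hx ⟨![1, 0], by simp [triple]⟩
    · exact hx ⟨![2, 0], by simp [triple]⟩
  rcases hp with hp | hp
  · exact key false hp
  · exact key true hp

/-! ### Without passing `A` wins -/

theorem star_wins : AWinsWithoutPassing E₀ F₀ := by
  refine .aMove _ (Function.update (fun _ => none) ![0, 2] (some false))
    (Or.inl ⟨![0, 2], Or.inr rfl, false, rfl, rfl⟩) ?_
  set q1 : Position 2 Bool := Function.update (fun _ => none) ![0, 2] (some false) with hq1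
  have h1 : ∀ i : ℤ, q1 ![i, 0] = none := by
    intro i
    rw [hq1, Function.update_of_ne (line_ne i)]
  refine .bMove _ ⟨![0, 0], mem_line 0, h1 0⟩ ?_
  rintro q2 (⟨x, hxE, a, hx, rfl⟩ | ⟨h, -⟩)
  swap
  · exact h.elim
  have hxl : x 1 = 0 := by
    rcases hxE with h | h
    · exact h
    · rw [Set.mem_singleton_iff] at h
      rw [h, hq1, Function.update_self] at hx
      exact absurd hx (by simp)
  obtain ⟨i, rfl⟩ : ∃ i : ℤ, x = ![i, 0] := ⟨x 0, eq_line hxl⟩
  set q2 : Position 2 Bool := Function.update q1 ![i, 0] (some a) with hq2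
  have h2 : ∀ j : ℤ, j ≠ i → q2 ![j, 0] = none := by
    intro j hj
    rw [hq2, Function.update_of_ne (fun h => hj (line_inj.1 h)), h1]
  have h2i : q2 ![i, 0] = some a := by rw [hq2, Function.update_self]
  refine .aMove _ (Function.update q2 ![i + 1, 0] (some a))
    (Or.inl ⟨_, mem_line _, a, h2 _ (by omega), rfl⟩) ?_
  set q3 : Position 2 Bool := Function.update q2 ![i + 1, 0] (some a) with hq3
  have h3 : ∀ j : ℤ, j ≠ i → j ≠ i + 1 → q3 ![j, 0] = none := by
    intro j hj hj'
    rw [hq3, Function.update_of_ne (fun h => hj' (line_inj.1 h)), h2 _ hj]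
  have h3i : q3 ![i, 0] = some a := by
    rw [hq3, Function.update_of_ne (fun h => by have := line_inj.1 h; omega), h2i]
  have h3i' : q3 ![i + 1, 0] = some a := by rw [hq3, Function.update_self]
  refine .bMove _ ⟨![i + 2, 0], mem_line _, h3 _ (by omega) (by omega)⟩ ?_
  rintro q4 (⟨y, hyE, b, hy, rfl⟩ | ⟨h, -⟩)
  swap
  · exact h.elim
  have hyi : y ≠ ![i, 0] := by
    rintro rfl
    rw [h3i] at hy
    exact absurd hy (by simp)
  have hyi' : y ≠ ![i + 1, 0] := by
    rintro rfl
    rw [h3i'] at hy
    exact absurd hy (by simp)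
  have h4i : Function.update q3 y (some b) ![i, 0] = some a := by
    rw [Function.update_of_ne hyi.symm, h3i]
  have h4i' : Function.update q3 y (some b) ![i + 1, 0] = some a := by
    rw [Function.update_of_ne hyi'.symm, h3i']
  by_cases hcase : y = ![i + 2, 0]
  · -- complete on the left
    subst hcase
    set q4 : Position 2 Bool := Function.update q3 ![i + 2, 0] (some b) with hq4
    have h4 : q4 ![i - 1, 0] = none := by
      rw [hq4, Function.update_of_ne (fun h => by have := line_inj.1 h; omega)]
      exact h3 _ (by omega) (by omega)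
    refine .aMove _ (Function.update q4 ![i - 1, 0] (some a)) (Or.inl ⟨_, mem_line _, a, h4, rfl⟩)
      (.final _ _ ?_)
    refine final_of (i := i - 1) (a := a) (Function.update_self _ _ _) ?_ ?_
    · rw [show i - 1 + 1 = i by ring, Function.update_of_ne (fun h => by have := line_inj.1 h; omega)]
      exact h4i
    · rw [show i - 1 + 2 = i + 1 by ring,
        Function.update_of_ne (fun h => by have := line_inj.1 h; omega)]
      exact h4i'
  · set q4 : Position 2 Bool := Function.update q3 y (some b) with hq4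
    have h4 : q4 ![i + 2, 0] = none := by
      rw [hq4, Function.update_of_ne (fun h => hcase h.symm)]
      exact h3 _ (by omega) (by omega)
    refine .aMove _ (Function.update q4 ![i + 2, 0] (some a)) (Or.inl ⟨_, mem_line _, a, h4, rfl⟩)
      (.final _ _ ?_)
    refine final_of (i := i) (a := a) ?_ ?_ (Function.update_self _ _ _)
    · rw [Function.update_of_ne (fun h => by have := line_inj.1 h; omega)]
      exact h4i
    · rw [Function.update_of_ne (fun h => by have := line_inj.1 h; omega)]
      exact h4i'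

/-! ### With passing `B` wins -/

/-- The invariant of `B`: no cell off the line except the extra one is coloured, and every pair
`2k, 2k+1` is uncoloured or has two different colours. -/
def Inv (q : Position 2 Bool) : Prop :=
  (∀ x : Cell 2, x 1 ≠ 0 → x ≠ ![0, 2] → q x = none) ∧
    ∀ k : ℤ, (q ![2 * k, 0] = none ∧ q ![2 * k + 1, 0] = none) ∨
      ∃ a, q ![2 * k, 0] = some a ∧ q ![2 * k + 1, 0] = some (!a)

/-- Weaker: pairs with two colours have different colours. -/
def Weak (q : Position 2 Bool) : Prop :=
  (∀ x : Cell 2, x 1 ≠ 0 → x ≠ ![0, 2] → q x = none) ∧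
    ∀ k : ℤ, ∀ a, q ![2 * k, 0] = some a → q ![2 * k + 1, 0] ≠ some a

theorem Inv.weak {q : Position 2 Bool} (h : Inv q) : Weak q := by
  refine ⟨h.1, fun k a ha hb => ?_⟩
  rcases h.2 k with ⟨h1, -⟩ | ⟨b, h1, h2⟩
  · rw [h1] at ha
    exact absurd ha (by simp)
  · rw [ha] at h1
    rw [hb] at h2
    simp only [Option.some.injEq] at h1 h2
    rw [← h1] at h2
    cases a <;> simp at h2

theorem Weak.not_final {q : Position 2 Bool} (h : Weak q) : ¬ Final F₀ q := by
  intro hf
  obtain ⟨x, a, h0, h1, h2⟩ := final_cases hf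
  by_cases hx : x 1 = 0
  · obtain ⟨i, rfl⟩ : ∃ i : ℤ, x = ![i, 0] := ⟨x 0, eq_line hx⟩
    have e : ∀ k : ℤ, (![i, 0] : Cell 2) + ![k, 0] = ![i + k, 0] := by
      intro k
      ext j
      fin_cases j <;> simp
    rw [e] at h1 h2
    rcases Int.even_or_odd' i with ⟨k, rfl | rfl⟩
    · exact h.2 k a h0 h1
    · refine h.2 (k + 1) a ?_ ?_
      · rw [show 2 * (k + 1) = 2 * k + 1 + 1 by ring]
        exact h1
      · rw [show 2 * (k + 1) + 1 = 2 * k + 1 + 2 by ring]
        exact h2
  · by_cases hx2 : x = ![0, 2]
    · subst hx2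
      have : q ((![0, 2] : Cell 2) + ![1, 0]) = none := by
        refine h.1 _ (by simp) ?_
        intro h3
        have := congrFun h3 0
        simp at this
      rw [this] at h1
      exact absurd h1 (by simp)
    · rw [h.1 x hx hx2] at h0
      exact absurd h0 (by simp)

/-- The other cell of the pair. -/
theorem reply {q q' : Position 2 Bool} (hq : Inv q) (hm : Move True E₀ q q') :
    Weak q' ∧ ∃ q'', Move True E₀ q' q'' ∧ Inv q'' := by
  rcases hm with ⟨x, hxE, a, hx, rfl⟩ | ⟨-, rfl⟩
  swap
  · exact ⟨hq.weak, q', Or.inr ⟨trivial, rfl⟩, hq⟩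
  by_cases hx2 : x = ![0, 2]
  · subst hx2
    have hne : ∀ i : ℤ, Function.update q ![0, 2] (some a) ![i, 0] = q ![i, 0] := by
      intro i
      rw [Function.update_of_ne (line_ne i)]
    have hI : Inv (Function.update q ![0, 2] (some a)) := by
      refine ⟨fun y hy1 hy2 => ?_, fun k => ?_⟩
      · rw [Function.update_of_ne hy2]
        exact hq.1 y hy1 hy2
      · rw [hne, hne]
        exact hq.2 k
    exact ⟨hI.weak, _, Or.inr ⟨trivial, rfl⟩, hI⟩
  · have hxl : x 1 = 0 := by
      rcases hxE with h | h
      · exact h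
      · exact absurd h hx2
    obtain ⟨i, rfl⟩ : ∃ i : ℤ, x = ![i, 0] := ⟨x 0, eq_line hxl⟩
    -- the partner `j` of `i`
    obtain ⟨j, k, hij⟩ : ∃ j k : ℤ, (i = 2 * k ∧ j = 2 * k + 1) ∨ (i = 2 * k + 1 ∧ j = 2 * k) := by
      rcases Int.even_or_odd' i with ⟨k, h | h⟩
      · exact ⟨2 * k + 1, k, Or.inl ⟨h, rfl⟩⟩
      · exact ⟨2 * k, k, Or.inr ⟨h, rfl⟩⟩
    have hji : j ≠ i := by
      rcases hij with ⟨h1, h2⟩ | ⟨h1, h2⟩ <;> omega
    have hqj : q ![j, 0] = none := by
      rcases hq.2 k with ⟨h1, h2⟩ | ⟨b, h1, h2⟩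
      · rcases hij with ⟨h3, h4⟩ | ⟨h3, h4⟩
        · rw [h4]
          exact h2
        · rw [h4]
          exact h1
      · exfalso
        rcases hij with ⟨h3, h4⟩ | ⟨h3, h4⟩
        · rw [h3, h1] at hx
          exact absurd hx (by simp)
        · rw [h3, h2] at hx
          exact absurd hx (by simp)
    set q1 : Position 2 Bool := Function.update q ![i, 0] (some a) with hq1
    have h1i : q1 ![i, 0] = some a := by rw [hq1, Function.update_self]
    have h1ne : ∀ l : ℤ, l ≠ i → q1 ![l, 0] = q ![l, 0] := by
      intro l hl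
      rw [hq1, Function.update_of_ne (fun h => hl (line_inj.1 h))]
    have h1j : q1 ![j, 0] = none := by rw [h1ne j hji, hqj]
    set q2 : Position 2 Bool := Function.update q1 ![j, 0] (some (!a)) with hq2
    have h2j : q2 ![j, 0] = some (!a) := by rw [hq2, Function.update_self]
    have h2i : q2 ![i, 0] = some a := by
      rw [hq2, Function.update_of_ne (fun h => hji (line_inj.1 h).symm), h1i]
    have h2ne : ∀ l : ℤ, l ≠ i → l ≠ j → q2 ![l, 0] = q ![l, 0] := by
      intro l hl hl'
      rw [hq2, Function.update_of_ne (fun h => hl' (line_inj.1 h)), h1ne l hl]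
    have hoff : ∀ y : Cell 2, y 1 ≠ 0 → y ≠ ![0, 2] → q2 y = none ∧ q1 y = none := by
      intro y hy1 hy2
      have e1 : y ≠ ![i, 0] := by
        rintro rfl
        exact hy1 rfl
      have e2 : y ≠ ![j, 0] := by
        rintro rfl
        exact hy1 rfl
      have e3 : q1 y = none := by
        rw [hq1, Function.update_of_ne e1]
        exact hq.1 y hy1 hy2
      refine ⟨?_, e3⟩
      rw [hq2, Function.update_of_ne e2, e3]
    refine ⟨⟨fun y hy1 hy2 => (hoff y hy1 hy2).2, fun l b hb1 hb2 => ?_⟩, q2,
      Or.inl ⟨_, mem_line j, !a, h1j, rfl⟩, fun y hy1 hy2 => (hoff y hy1 hy2).1, fun l => ?_⟩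
    · by_cases hl : l = k
      · subst hl
        rcases hij with ⟨h3, h4⟩ | ⟨h3, h4⟩
        · rw [h4] at h1j
          rw [h1j] at hb2
          exact absurd hb2 (by simp)
        · rw [h4] at h1j
          rw [h1j] at hb1
          exact absurd hb1 (by simp)
      · rw [h1ne _ (by rcases hij with ⟨h3, h4⟩ | ⟨h3, h4⟩ <;> omega)] at hb1
        rw [h1ne _ (by rcases hij with ⟨h3, h4⟩ | ⟨h3, h4⟩ <;> omega)] at hb2
        exact hq.weak.2 l b hb1 hb2
    · by_cases hl : l = k
      · subst hl
        right
        rcases hij with ⟨h3, h4⟩ | ⟨h3, h4⟩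
        · refine ⟨a, ?_, ?_⟩
          · rw [← h3, h2i]
          · rw [← h4, h2j]
        · refine ⟨!a, ?_, ?_⟩
          · rw [← h4, h2j]
          · rw [← h3, h2i]
            simp
      · rw [h2ne _ (by rcases hij with ⟨h3, h4⟩ | ⟨h3, h4⟩ <;> omega)
            (by rcases hij with ⟨h3, h4⟩ | ⟨h3, h4⟩ <;> omega),
          h2ne _ (by rcases hij with ⟨h3, h4⟩ | ⟨h3, h4⟩ <;> omega)
            (by rcases hij with ⟨h3, h4⟩ | ⟨h3, h4⟩ <;> omega)]
        exact hq.2 l

theorem pass_loses {t : Bool} {q : Position 2 Bool} (h : AWins True E₀ F₀ t q) :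
    (t = true → ¬ Inv q) ∧ (t = false → ¬ ∃ p, Inv p ∧ Move True E₀ p q) := by
  induction h with
  | final t q h =>
    refine ⟨fun _ hI => hI.weak.not_final h, ?_⟩
    rintro - ⟨p, hp, hm⟩
    exact (reply hp hm).1.not_final h
  | aMove q q' hm h ih =>
    refine ⟨fun _ hI => ?_, fun h => absurd h (by simp)⟩
    exact ih.2 rfl ⟨q, hI, hm⟩
  | bMove q hfree h ih =>
    refine ⟨fun h => absurd h (by simp), ?_⟩
    rintro - ⟨p, hp, hm⟩
    obtain ⟨-, q'', h1, h2⟩ := reply hp hm
    exact (ih q'' h1).1 rfl h2

/-- **Theorem.** For the line plus one cell in `ℤ²` and the two forbidden words `000`, `111`, the game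
without passing is winning for `A`, and the game with passing is not (it is winning for `B`). -/
theorem result : F₀.Finite ∧ AWinsWithoutPassing E₀ F₀ ∧ ¬ AWinsWithPassing E₀ F₀ := by
  refine ⟨(Set.finite_singleton _).insert _, star_wins, fun h => ?_⟩
  exact (pass_loses h).1 rfl ⟨fun _ _ _ => rfl, fun _ => Or.inl ⟨rfl, rfl⟩⟩

end Pool.Agent.Results.MP_d015f1_co.PassingMatters
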